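import Pool.Agent.Helper15_SIU.Stmts

/-!
# Squad SIU, module DCT: dominated convergence for integrals over the manifold
-/

set_option autoImplicit false

open MeasureTheory Filter Topology
open scoped ENNReal

namespace Pool.Agent.SIU.H63

theorem measurableSet_Shell : MeasurableSet Shell := isCompact_Shell.isClosed.measurableSet

/-- almost every point of the shell is generic -/
theorem ae_gen : ∀ᵐ z : E7 ∂(volume.restrict Shell),
    z ∈ Shell ∩ U2' ∧ z 1 ≠ 0 ∧ z 4 ≠ 0 ∧ z 6 ≠ 0 := by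
  have h : ∀ j : Fin 7, ∀ᵐ z : E7 ∂(volume.restrict Shell), z j ≠ 0 := fun j =>
    ae_restrict_of_ae (by rw [volume_pi]; exact Measure.ae_eval_ne _ j 0)
  filter_upwards [h 1, h 4, h 6, h 2, ae_restrict_mem measurableSet_Shell] with z h1 h4 h6 h2 hS
  exact ⟨⟨hS, Shell_subset hS, (BB_ne_zero z).mpr (Or.inl h2)⟩, h1, h4, h6⟩

/-- almost every point of the chart is in the domain of the flop -/
theorem ae_chart : ∀ᵐ x : Fin 4 → ℂ, sig x ∈ U2' := by
  have h : ∀ᵐ x : Fin 4 → ℂ, x 1 ≠ 0 := by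
    rw [volume_pi]; exact Measure.ae_eval_ne _ 1 0
  filter_upwards [h] with x hx
  exact (sig_mem_U2' x).mpr (Or.inl hx)

theorem continuous_sig : Continuous sig :=
  continuous_iff_continuousAt.mpr fun x => (hasFDerivAt_sig x).continuousAt

theorem isOpen_chart : IsOpen {x : Fin 4 → ℂ | sig x ∈ U2'} := isOpen_U2'.preimage continuous_sig

/-- evaluation of a continuous alternating form at fixed vectors is continuous -/
theorem chi_contOn {η : E7 → Alt 7 8} (hη : ContinuousOn η U2') :
    ContinuousOn (chi η) {x : Fin 4 → ℂ | sig x ∈ U2'} := by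
  have h1 : ContinuousOn (fun x => η (sig x)) {x : Fin 4 → ℂ | sig x ∈ U2'} :=
    hη.comp continuous_sig.continuousOn (fun x hx => hx)
  have h2 : Continuous (fun a : Alt 7 8 => a (fun i : Fin 8 => inc (stdb 4 8 i))) :=
    continuous_eval_const _
  exact h2.comp_continuousOn h1

theorem chi_meas {η : E7 → Alt 7 8} (hη : ContinuousOn η U2') :
    AEStronglyMeasurable (chi η) (volume : Measure (Fin 4 → ℂ)) := by
  have h1 := (chi_contOn hη).aestronglyMeasurable (μ := (volume : Measure (Fin 4 → ℂ)))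
    isOpen_chart.measurableSet
  have h2 : (volume : Measure (Fin 4 → ℂ)).restrict {x : Fin 4 → ℂ | sig x ∈ U2'} = volume :=
    Measure.restrict_eq_self_of_ae_mem ae_chart
  rwa [h2] at h1

/-- the norm of a form is measurable on the shell -/
theorem nrm_meas {η : E7 → Alt 7 8} (hη : ContinuousOn η U2') :
    AEStronglyMeasurable (fun z => ‖η z‖) (volume.restrict Shell) := by
  have hm : MeasurableSet (Shell ∩ U2') := measurableSet_Shell.inter isOpen_U2'.measurableSet
  have h1 : AEStronglyMeasurable (fun z => ‖η z‖) (volume.restrict (Shell ∩ U2')) :=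
    (hη.norm.mono Set.inter_subset_right).aestronglyMeasurable hm
  have h2 : volume.restrict (Shell ∩ U2') = volume.restrict Shell := by
    have h3 : (volume.restrict Shell).restrict U2' = volume.restrict Shell := by
      refine Measure.restrict_eq_self_of_ae_mem ?_
      filter_upwards [ae_gen] with z hz
      exact hz.1.2
    rw [Measure.restrict_restrict isOpen_U2'.measurableSet, Set.inter_comm] at h3
    exact h3
  rwa [h2] at h1

theorem basic_sub {η η' : E7 → Alt 7 8} (h : X2.BasicOn U2' η) (h' : X2.BasicOn U2' η') :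
    X2.BasicOn U2' (fun z => η z - η' z) := by
  refine ⟨fun z hz c hc v => ?_, fun z hz v i hv => ?_⟩
  · show η _ _ - η' _ _ = η _ _ - η' _ _
    rw [h.1 z hz c hc v, h'.1 z hz c hc v]
  · show η _ _ - η' _ _ = 0
    rw [h.2 z hz v i hv, h'.2 z hz v i hv, sub_zero]

theorem dct (hN : NinStmt) : DctStmt := by
  obtain ⟨C, hC, hCb⟩ := hN
  have part1 : ∀ (η : E7 → Alt 7 8) (g : E7 → ℝ), ContinuousOn η U2' → X2.BasicOn U2' η →
      IntegrableOn g Shell →
      (∀ z ∈ Shell ∩ U2', z 1 ≠ 0 → z 4 ≠ 0 → z 6 ≠ 0 → ‖η z‖ ≤ g z) →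
      Integrable (chi η) := by
    intro η g hη hb hg hle
    refine ⟨chi_meas hη, ?_⟩
    have h1 : ∫⁻ x, ‖chi η x‖ₑ = ∫⁻ x, ENNReal.ofReal |chi η x| := by
      refine lintegral_congr fun x => ?_
      rw [← Real.norm_eq_abs, ofReal_norm]
    have h2 : ∫⁻ z in Shell, ENNReal.ofReal ‖η z‖ ≤ ∫⁻ z in Shell, ‖g z‖ₑ := by
      refine lintegral_mono_ae ?_
      filter_upwards [ae_gen] with z hz
      rw [← ofReal_norm]
      exact ENNReal.ofReal_le_ofReal ((hle z hz.1 hz.2.1 hz.2.2.1 hz.2.2.2).trans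
        (le_abs_self _))
    show ∫⁻ x, ‖chi η x‖ₑ < ⊤
    rw [h1]
    refine lt_of_le_of_lt (hCb η hη hb) ?_
    exact ENNReal.mul_lt_top hC.lt_top (lt_of_le_of_lt h2 hg.2)
  refine ⟨part1, ?_⟩
  intro η η' g hη hb hη' hb' hg hle hlim
  have hle' : ∀ z ∈ Shell ∩ U2', z 1 ≠ 0 → z 4 ≠ 0 → z 6 ≠ 0 → ‖η' z‖ ≤ g z := by
    intro z hz h1 h4 h6
    exact le_of_tendsto (hlim z hz h1 h4 h6).norm
      (Eventually.of_forall fun i => hle i z hz h1 h4 h6)
  refine tendsto_integral_of_L1 _ (part1 η' g hη' hb' hg hle').1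
    (Eventually.of_forall fun i => part1 (η i) g (hη i) (hb i) hg (hle i)) ?_
  -- the difference is controlled on the shell
  have hdiff : ∀ i, ∫⁻ x, ‖chi (η i) x - chi η' x‖ₑ ≤
      C * ∫⁻ z in Shell, ENNReal.ofReal ‖η i z - η' z‖ := by
    intro i
    have h1 := hCb (fun z => η i z - η' z) ((hη i).sub hη') (basic_sub (hb i) hb')
    refine le_trans (le_of_eq ?_) h1
    refine lintegral_congr fun x => ?_
    rw [← ofReal_norm, Real.norm_eq_abs]
    rfl
  have hlim0 : Tendsto (fun i => ∫⁻ z in Shell, ENNReal.ofReal ‖η i z - η' z‖) atTop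
      (𝓝 (∫⁻ _ in Shell, (0 : ℝ≥0∞))) := by
    refine tendsto_lintegral_of_dominated_convergence' (fun z => ENNReal.ofReal (2 * g z)) ?_ ?_
      ?_ ?_
    · intro i
      exact (nrm_meas ((hη i).sub hη')).aemeasurable.ennreal_ofReal
    · intro i
      filter_upwards [ae_gen] with z hz
      refine ENNReal.ofReal_le_ofReal ?_
      have h1 := hle i z hz.1 hz.2.1 hz.2.2.1 hz.2.2.2
      have h2 := hle' z hz.1 hz.2.1 hz.2.2.1 hz.2.2.2
      have h3 := norm_sub_le (η i z) (η' z)
      linarith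
    · have h1 : Integrable (fun z => 2 * g z) (volume.restrict Shell) := hg.const_mul 2
      refine ne_of_lt (lt_of_le_of_lt (lintegral_mono fun z => ?_) h1.2)
      rw [← ofReal_norm]
      exact ENNReal.ofReal_le_ofReal (le_abs_self _)
    · filter_upwards [ae_gen] with z hz
      have h1 := hlim z hz.1 hz.2.1 hz.2.2.1 hz.2.2.2
      have h2 : Tendsto (fun i => ‖η i z - η' z‖) atTop (𝓝 0) := by
        have h3 := (h1.sub_const (η' z)).norm
        simpa using h3
      have h4 := ENNReal.tendsto_ofReal h2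
      simpa using h4
  have hC0 : Tendsto (fun i => C * ∫⁻ z in Shell, ENNReal.ofReal ‖η i z - η' z‖) atTop
      (𝓝 0) := by
    have h1 := ENNReal.Tendsto.const_mul hlim0 (Or.inr hC)
    simpa using h1
  exact tendsto_of_tendsto_of_tendsto_of_le_of_le tendsto_const_nhds hC0
    (fun i => bot_le) hdiff

end Pool.Agent.SIU.H63
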