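import Pool.Agent.Helper15_SIU.Stmts

/-!
# Squad SIU, module ISH: integrability on the shell
-/

set_option autoImplicit false

open MeasureTheory Filter Topology

namespace Pool.Agent.SIU.H63

/-- `1/|w|` is integrable on discs. -/
theorem inv_norm_int (r : ℝ) : IntegrableOn (fun w : ℂ => ‖w‖⁻¹) (Metric.ball 0 r) := by
  refine (integrableOn_fun_norm_addHaar (E := ℂ) (F := ℝ) volume (f := fun y => y⁻¹) (r := r)).2 ?_
  rw [Complex.finrank_real_complex]
  have h : IntegrableOn (fun _ : ℝ => (1 : ℝ)) (Set.Ioo 0 r) :=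
    integrableOn_const (by simp) (by simp)
  refine h.congr_fun ?_ measurableSet_Ioo
  intro y hy
  have hy0 : y ≠ 0 := hy.1.ne'
  simp [hy0]

theorem one_int (r : ℝ) : IntegrableOn (fun _ : ℂ => (1 : ℝ)) (Metric.ball 0 r) :=
  integrableOn_const (by exact Metric.isBounded_ball.measure_lt_top.ne) (by simp)

/-- products of functions of one coordinate -/
theorem prod_int (r : ℝ) (f : Fin 7 → ℂ → ℝ) (hf : ∀ i, IntegrableOn (f i) (Metric.ball 0 r)) :
    IntegrableOn (fun z : E7 => ∏ i, f i (z i)) (Set.univ.pi fun _ => Metric.ball (0 : ℂ) r) := by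
  unfold IntegrableOn
  rw [volume_pi, Measure.restrict_pi_pi]
  exact Integrable.fintype_prod hf

theorem shell_sub : ∃ r : ℝ, Shell ⊆ Set.univ.pi fun _ => Metric.ball (0 : ℂ) r := by
  obtain ⟨r, hr⟩ := isCompact_Shell.isBounded.subset_ball (0 : E7)
  refine ⟨r, fun z hz i _ => ?_⟩
  have h := hr hz
  rw [mem_ball_zero_iff] at h ⊢
  exact (norm_le_pi_norm z i).trans_lt h

theorem ish : IshStmt := by
  obtain ⟨r, hr⟩ := shell_sub
  refine ⟨?_, fun j => ?_⟩
  · have h := (prod_int r (fun i => if i = 2 ∨ i = 3 then fun w => ‖w‖⁻¹ else fun _ => 1) (by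
      intro i
      by_cases hi : i = 2 ∨ i = 3
      · rw [if_pos hi]
        exact inv_norm_int r
      · rw [if_neg hi]
        exact one_int r)).mono_set hr
    refine Integrable.mono' h (continuous_BB.measurable.inv.aestronglyMeasurable) ?_
    have h2 : ∀ᵐ z : E7 ∂(volume.restrict Shell), z 2 ≠ 0 :=
      ae_restrict_of_ae (by rw [volume_pi]; exact Measure.ae_eval_ne _ 2 0)
    have h3 : ∀ᵐ z : E7 ∂(volume.restrict Shell), z 3 ≠ 0 :=
      ae_restrict_of_ae (by rw [volume_pi]; exact Measure.ae_eval_ne _ 3 0)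
    filter_upwards [h2, h3] with z hz2 hz3
    have e : (∏ i : Fin 7, (if i = 2 ∨ i = 3 then fun w : ℂ => ‖w‖⁻¹ else fun _ => (1 : ℝ)) (z i))
        = ‖z 2‖⁻¹ * ‖z 3‖⁻¹ := by
      rw [← Finset.prod_subset (Finset.subset_univ ({2, 3} : Finset (Fin 7)))]
      · rw [Finset.prod_pair (by decide)]
        simp
      · intro i _ hi
        have hi' : ¬ (i = 2 ∨ i = 3) := by simpa using hi
        rw [if_neg hi']
    rw [e, Real.norm_of_nonneg (inv_nonneg.mpr (BB_nonneg z)), ← mul_inv]
    have p2 : 0 < ‖z 2‖ := norm_pos_iff.mpr hz2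
    have p3 : 0 < ‖z 3‖ := norm_pos_iff.mpr hz3
    refine inv_anti₀ (by positivity) ?_
    unfold BB
    nlinarith [sq_nonneg (‖z 2‖ - ‖z 3‖)]
  · have h := (prod_int r (fun i => if i = j then fun w => ‖w‖⁻¹ else fun _ => 1) (by
      intro i
      by_cases hi : i = j
      · rw [if_pos hi]
        exact inv_norm_int r
      · rw [if_neg hi]
        exact one_int r)).mono_set hr
    refine h.congr ?_
    refine Eventually.of_forall fun z => ?_
    show (∏ i : Fin 7, (if i = j then fun w : ℂ => ‖w‖⁻¹ else fun _ => (1 : ℝ)) (z i)) = ‖z j‖⁻¹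
    rw [Finset.prod_eq_single j]
    · simp
    · intro i _ hi
      simp [hi]
    · intro hj
      exact absurd (Finset.mem_univ j) hj

end Pool.Agent.SIU.H63
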